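import Pool.Agent.H255R.MO.Main

/-!
# The weights at least the dimension plus a constant
-/

universe u v w x

namespace Pool.Agent.H255R.MO

open Pool.Agent.H914 Pool.Agent.H914.VarClass Pool.Agent.H914.VarClass.Obj Pool.Agent.W492.BB
  Pool.Agent.W550.Corr Pool.Agent.TH133 Pool.Agent.H255R.HR Pool.Agent.H255R.MR

/-- The condition `d + c ≤ r` is admissible. -/
lemma isOk_high (c : ℤ) : IsOk fun d r => (d : ℤ) + c ≤ r where
  same := by intro d r h; push_cast at h; omega
  pred := by intro d r h; push_cast at h; omega
  succ := Or.inr (by intro d r h; push_cast; omega)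

end Pool.Agent.H255R.MO
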