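import Pool.Agent.H255R.MO.Step
import Pool.Agent.H255R.MR.Map

/-!
# Products of surfaces and products of curves, for general conditions on the weights
-/

open CategoryTheory AlgebraicGeometry

universe u v w x

namespace Pool.Agent.H255R.MO

open Pool.Agent.H914 Pool.Agent.H914.VarClass Pool.Agent.H914.VarClass.Obj Pool.Agent.W492.BB
  Pool.Agent.W550.Corr Pool.Agent.TH133 Pool.Agent.H255R.HR Pool.Agent.H255R.PC
  Pool.Agent.H255R.MR

set_option linter.unusedSectionVars false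

variable {k : Type u} [Field k] {𝒱 : VarClass k} {C : TheoryData.{u, v, 0} 𝒱 ℚ}
  {M : ModData.{u, v, x} C} {X Y Z S T V W : 𝒱.Obj}

variable [hC : IsChowProj C] [hM : IsModTheory M]

include hC hM

lemma GoodO.isom {𝓜 𝓝 : Fam M} {ok : ℕ → ℤ → Prop} (h : Isom X Y) (hd : X.dim = Y.dim)
    (hX : GoodO 𝓜 𝓝 ok X) : GoodO 𝓜 𝓝 ok Y := by
  obtain ⟨f, g, h1, h2⟩ := h
  intro r hr t ht
  have h3 := 𝓝.up g (hX r (by rw [hd]; exact hr) _ (𝓜.up f ht))
  rwa [← MR.up_comp, h2, MR.up_id] at h3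

/-- Blow-ups. -/
lemma GoodO.blowup {𝓜 𝓝 : Fam M} {ok : ℕ → ℤ → Prop} (hok : IsOk ok) {b : Y ⟶ X} (hb : IsBlowup.{u, v, x} C b)
    (hY : Y.dim = 2) (h1 : GoodO 𝓜 𝓝 ok (Z.prod X)) (h2 : GoodO 𝓜 𝓝 ok Z) :
    GoodO 𝓜 𝓝 ok (Z.prod Y) := by
  obtain ⟨hdim, n, e, e', hdeg, hid⟩ := hb
  intro r hr t ht
  rw [hid M hM Z t]
  have hr1 : ok (Z.prod X).dim r := by
    rwa [dim_prod, ← hdim, ← dim_prod]
  rw [dim_prod, hY] at hr
  refine 𝓝.add (𝓝.up _ (h1 r hr1 _ (𝓜.down _ ?_ ht))) (𝓝.sum fun j => ?_)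
  · rw [dim_prod, dim_prod, hdim]
  · exact thr_memO h2 (hdeg j).1 (hdeg j).2 (by rw [hY]; norm_num)
      (hok.same _ _ (hok.pred (Z.dim + 1) _ hr)) ht

/-- Morphisms of finite degree. -/
lemma GoodO.degree {𝓜 𝓝 : Fam M} {ok : ℕ → ℤ → Prop} {f : Y ⟶ X} {m : ℚ} (hf : IsOfDegree C f m)
    (hm : m ≠ 0) (h : GoodO 𝓜 𝓝 ok (Z.prod Y)) : GoodO 𝓜 𝓝 ok (Z.prod X) := by
  have hd := degree_prod hf Z
  intro r hr t ht
  have h1 := 𝓝.down (prodMap (𝟙 Z) f) (s := r) (by rw [hd.1])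
    (h r (by rw [hd.1]; exact hr) _ (𝓜.up (prodMap (𝟙 Z) f) ht))
  rw [down_up hd] at h1
  have h3 := 𝓝.smul m⁻¹ h1
  rwa [inv_smul_smul₀ hm] at h3

omit hC hM in
lemma dim_swap (A X : 𝒱.Obj) (l : List 𝒱.Obj) :
    ((app A l).prod X).dim = (app (A.prod X) l).dim := by
  induction l with
  | nil => rfl
  | cons S l ih =>
    have h1 := dim_prod (app A l) S
    have h2 := dim_prod ((app A l).prod S) X
    have h3 := dim_prod (app (A.prod X) l) S
    have h4 := dim_prod (app A l) X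
    show ((((app A l).prod S).prod X)).dim = ((app (A.prod X) l).prod S).dim
    omega

/-- Varieties dominated by products of curves. -/
lemma GoodO.dominated {𝓜 𝓝 : Fam M} {ok : ℕ → ℤ → Prop} (hok : IsOk ok)
    (h : IsDominatedBy C W X) (hW : GoodO 𝓜 𝓝 ok W) : GoodO 𝓜 𝓝 ok X := by
  obtain ⟨f, e, z, hdim, hz, h1⟩ := h
  intro r hr t ht
  rcases hok.succ with hs | hs
  · have key : ∀ n : ℕ, ok (X.dim + n) r := by
      intro n
      induction n with
      | zero => exact hr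
      | succ n ih => exact hs _ _ ih
    have h2 := 𝓝.act (hW r (by rw [hdim]; exact key e) _ (𝓜.up f ht)) hz
    have h3 := 𝓝.down f (s := r) (by rw [hdim]; push_cast; ring) h2
    rwa [hM.isFunctorial.proj', h1, one_act] at h3
  · have key : ∀ n : ℕ, ok (X.dim + n) (r + n) := by
      intro n
      induction n with
      | zero => simpa using hr
      | succ n ih =>
        have h5 := hs _ _ ih
        have h6 : r + (n : ℤ) + 1 = r + ((n + 1 : ℕ) : ℤ) := by push_cast; ring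
        rw [h6] at h5
        exact h5
    have h2 := hW (r + e) (by rw [hdim]; exact key e) _ (𝓜.act (𝓜.up f ht) hz)
    have h3 := 𝓝.down f (s := r) (by rw [hdim]; push_cast; ring) h2
    rwa [hM.isFunctorial.proj', h1, one_act] at h3

/-- From products of curves to products of surfaces. -/
theorem conv_appO {U : 𝒱.Obj} {𝒞 : 𝒱.Obj → Prop} {𝓜 𝓝 : Fam M} {ok : ℕ → ℤ → Prop} (hok : IsOk ok) {N : ℕ}
    (h : ∀ n ≤ N, ∀ W : 𝒱.Obj, IsProdOf U 𝒞 n W → GoodO 𝓜 𝓝 ok W) {m : ℕ} {A : 𝒱.Obj}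
    (hA : IsProdOf U (IsDominated.{u, v, x} C 𝒞) m A) : ∀ (l : List 𝒱.Obj), (∀ S ∈ l, 𝒞 S) →
      2 * m + l.length ≤ N → GoodO 𝓜 𝓝 ok (app A l) := by
  induction hA with
  | base =>
    intro l hl hn
    have key : ∀ l : List 𝒱.Obj, (∀ S ∈ l, 𝒞 S) → IsProdOf U 𝒞 l.length (app U l) := by
      intro l
      induction l with
      | nil => exact fun _ => .base
      | cons S l ih =>
        intro hl
        exact IsProdOf.prod _ _ _ (ih fun T hT => hl T (List.mem_cons_of_mem _ hT))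
          (hl S List.mem_cons_self)
    exact h l.length (by omega) _ (key l hl)
  | prod m A X _ hX ih =>
    intro l hl hn
    obtain ⟨hX2, V, W, Y, b, f, c, hV, hW, hb, hf, hc⟩ := hX
    refine GoodO.isom (app_swap A X l) (dim_swap A X l) ?_
    refine GoodO.degree hf hc ?_
    have h1 : GoodO 𝓜 𝓝 ok (((app A l).prod V).prod W) := ih (W :: V :: l)
      (fun U hU => by
        rcases List.mem_cons.1 hU with rfl | hU
        · exact hW
        rcases List.mem_cons.1 hU with rfl | hU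
        · exact hV
        exact hl U hU) (by simp; omega)
    exact GoodO.blowup hok hb (by rw [hf.1, hX2]) (GoodO.isom (Isom.assoc _ _ _) (by simp only [dim_prod]; omega) h1)
      (ih l hl (by omega))

variable {F : Type w} [Field F] [CharZero F] {H : WeilTheoryData.{u, v, w} C F}
  [hH : IsWeilProj H]

/-- From products of regular surfaces to products of curves. -/
theorem main_appO {U : 𝒱.Obj} {𝒞 : 𝒱.Obj → Prop} {𝓜 𝓝 : Fam M} {ok : ℕ → ℤ → Prop} (hok : IsOk ok) {N : ℕ}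
    (hG : HasGalQuotients.{u, v, w, x} H 𝒞)
    (h : ∀ m ≤ N, ∀ A, IsProdOf U (IsRegDominated.{u, v, w, x} H 𝒞) m A → GoodO 𝓜 𝓝 ok A ∧
      ∀ S : 𝒱.Obj, 𝒞 S → GoodO 𝓜 𝓝 ok (A.prod S)) :
    ∀ (n : ℕ) (l : List 𝒱.Obj) (m : ℕ) (A : 𝒱.Obj), l.length = n → (∀ S ∈ l, 𝒞 S) →
      IsProdOf U (IsRegDominated.{u, v, w, x} H 𝒞) m A → 2 * m + n ≤ 2 * N + 1 →
      GoodO 𝓜 𝓝 ok (app A l) := by
  intro n
  induction n using Nat.strong_induction_on with
  | _ n ih =>
    intro l m A hl hc hA hn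
    match l, hl, hc with
    | [], hl, _ => exact (h m (by simp at hl; omega) A hA).1
    | [S], hl, hc => exact (h m (by simp at hl; omega) A hA).2 S (hc S (by simp))
    | T :: S :: l, hl, hc =>
      have hS' : 𝒞 S := hc S (by simp)
      have hT' : 𝒞 T := hc T (by simp)
      have hS : S.dim = 1 := hG.1 S hS'
      have hT : T.dim = 1 := hG.1 T hT'
      obtain ⟨X, hX⟩ := hG.2 S T hS' hT'
      have hlen : n = l.length + 2 := by rw [← hl]; simp
      have h1 : GoodO 𝓜 𝓝 ok ((app A l).prod S) :=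
        ih (l.length + 1) (by omega) (S :: l) m A (by simp)
          (fun U hU => hc U (by simp at hU ⊢; tauto)) hA (by omega)
      have h2 : GoodO 𝓜 𝓝 ok ((app A l).prod T) :=
        ih (l.length + 1) (by omega) (T :: l) m A (by simp)
          (fun U hU => hc U (by simp at hU ⊢; tauto)) hA (by omega)
      have h3 : GoodO 𝓜 𝓝 ok ((app A l).prod X) :=
        GoodO.isom (app_swap A X l).symm (dim_swap A X l).symm (ih l.length (by omega) l (m + 1) (A.prod X) rfl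
          (fun U hU => hc U (by simp at hU ⊢; tauto)) (.prod m A X hA (regularM hG.1 hX))
          (by omega))
      exact GoodO.isom (Isom.assoc _ _ _).symm (by simp only [app, dim_prod]; omega) (stepO hok hG.1 hS hT hX h1 h2 h3)

/-- The main equivalences, for two pairs of families in possibly different module theories. -/
theorem tfaeO {M' : ModData.{u, v, x} C} [hM' : IsModTheory M'] {𝓜 𝓝 : Fam M} {𝓜' 𝓝' : Fam M'}
    {𝒞 : 𝒱.Obj → Prop} (hG : HasGalQuotients.{u, v, w, x} H 𝒞) (U : 𝒱.Obj) {ok : ℕ → ℤ → Prop} (hok : IsOk ok) (N : ℕ)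
    (P : 𝒱.Obj → Prop) (hP : ∀ X, P X ↔ GoodO 𝓜 𝓝 ok X ∧ GoodO 𝓜' 𝓝' ok X) :
    List.TFAE [
      ∀ m ≤ N, ∀ A : 𝒱.Obj, IsProdOf U (IsRegDominated.{u, v, w, x} H 𝒞) m A →
        P A ∧ ∀ S : 𝒱.Obj, 𝒞 S → P (A.prod S),
      ∀ m ≤ N, ∀ A : 𝒱.Obj, IsProdOf U (IsDominated.{u, v, x} C 𝒞) m A →
        P A ∧ ∀ S : 𝒱.Obj, 𝒞 S → P (A.prod S),
      ∀ n ≤ 2 * N + 1, ∀ W : 𝒱.Obj, IsProdOf U 𝒞 n W → P W,
      ∀ n ≤ 2 * N + 1, ∀ W X : 𝒱.Obj, IsProdOf U 𝒞 n W → IsDominatedBy C W X → P X] := by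
  simp only [hP]
  tfae_have 1 → 3 := by
    intro h n hn W hW
    obtain ⟨l, hl, hc, rfl⟩ := exists_app hW
    exact ⟨main_appO hok hG (fun m hm A hA => ⟨(h m hm A hA).1.1, fun S hS => ((h m hm A hA).2 S hS).1⟩)
        n l 0 U hl hc .base (by omega),
      main_appO hok hG (fun m hm A hA => ⟨(h m hm A hA).1.2, fun S hS => ((h m hm A hA).2 S hS).2⟩)
        n l 0 U hl hc .base (by omega)⟩
  tfae_have 3 → 4 := by
    intro h n hn W X hW hX
    exact ⟨(h n hn W hW).1.dominated hok hX, (h n hn W hW).2.dominated hok hX⟩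
  tfae_have 4 → 2 := by
    intro h m hm A hA
    have h0 : ∀ W : 𝒱.Obj, IsDominatedBy C W W := fun W => ⟨𝟙 W, 0, 1, rfl, C.one_mem W, C.push_id 1⟩
    have h1 : ∀ n ≤ 2 * N + 1, ∀ W : 𝒱.Obj, IsProdOf U 𝒞 n W → GoodO 𝓜 𝓝 ok W :=
      fun n hn W hW => (h n hn W W hW (h0 W)).1
    have h2 : ∀ n ≤ 2 * N + 1, ∀ W : 𝒱.Obj, IsProdOf U 𝒞 n W → GoodO 𝓜' 𝓝' ok W :=
      fun n hn W hW => (h n hn W W hW (h0 W)).2
    exact ⟨⟨conv_appO hok h1 hA [] (by simp) (by simp; omega),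
        conv_appO hok h2 hA [] (by simp) (by simp; omega)⟩, fun S hS =>
      ⟨conv_appO hok h1 hA [S] (by simpa using hS) (by simp; omega),
        conv_appO hok h2 hA [S] (by simpa using hS) (by simp; omega)⟩⟩
  tfae_have 2 → 1 := fun h m hm A hA => h m hm A (hA.mono fun X hX => hX.2)
  tfae_finish

end Pool.Agent.H255R.MO
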